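import Pool.Agent.Y211.PY.Stm

set_option autoImplicit false

/-!
Project Y211-PY (owner helper211), MP_d2168f_ag, job 1044: general position of unit vectors
(stereographic coordinates).
-/

open scoped Matrix

universe u

namespace Pool.Agent.Y350.PY

open Pool.Agent.Y211.PY

section Homog

variable {K : Type*} [Field K]

/-- homogenised evaluation -/
noncomputable def homog {A : Type*} [CommRing A] [Algebra K A] (Φ : MvPolynomial (Fin 3) K)
    (x : Fin 3 → A) (y : A) : A :=
  ∑ m ∈ Φ.support, algebraMap K A (Φ.coeff m) * (∏ i, x i ^ m i) *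
    y ^ (Φ.totalDegree - m.sum fun _ e => e)

theorem homog_eq {A : Type*} [CommRing A] [Algebra K A] (Φ : MvPolynomial (Fin 3) K)
    (x h : Fin 3 → A) (y : A) (hx : ∀ i, x i = h i * y) :
    homog Φ x y = y ^ Φ.totalDegree * MvPolynomial.aeval h Φ := by
  classical
  rw [MvPolynomial.aeval_def, MvPolynomial.eval₂_eq', Finset.mul_sum, homog]
  refine Finset.sum_congr rfl fun m hm => ?_
  have h1 : (m.sum fun _ e => e) ≤ Φ.totalDegree := MvPolynomial.le_totalDegree hm
  have h2 : ∏ i, x i ^ m i = (∏ i, h i ^ m i) * y ^ (m.sum fun _ e => e) := by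
    have h3 : (m.sum fun _ e => e) = ∑ i, m i := by
      rw [Finsupp.sum_fintype]
      intro i; rfl
    rw [h3, ← Finset.prod_pow_eq_pow_sum, ← Finset.prod_mul_distrib]
    refine Finset.prod_congr rfl fun i _ => ?_
    rw [hx i, mul_pow]
  rw [h2]
  calc algebraMap K A (Φ.coeff m) * ((∏ i, h i ^ m i) * y ^ (m.sum fun _ e => e)) *
        y ^ (Φ.totalDegree - m.sum fun _ e => e)
      = (y ^ (m.sum fun _ e => e) * y ^ (Φ.totalDegree - m.sum fun _ e => e)) *
        (algebraMap K A (Φ.coeff m) * (∏ i, h i ^ m i)) := by ring
    _ = y ^ Φ.totalDegree * (algebraMap K A (Φ.coeff m) * (∏ i, h i ^ m i)) := by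
        rw [← pow_add, Nat.add_sub_cancel' h1]

theorem homog_map {A B : Type*} [CommRing A] [Algebra K A] [CommRing B] [Algebra K B]
    (f : A →ₐ[K] B) (Φ : MvPolynomial (Fin 3) K) (x : Fin 3 → A) (y : A) :
    f (homog Φ x y) = homog Φ (fun i => f (x i)) (f y) := by
  classical
  simp only [homog, map_sum, map_mul, map_pow, map_prod, AlgHom.commutes]

end Homog

theorem t : S_GP.{u} := by
  intro K R F _ _ _ _ _ _ _ _ _ hK hA N hN u hu
  classical
  have hchar : CharZero K := by
    refine (CharP.charP_zero_iff_charZero K).1 ?_
    obtain ⟨p, hp⟩ := CharP.exists K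
    rcases Nat.eq_zero_or_pos p with h | h
    · subst h; exact hp
    · exfalso
      apply hK
      have h1 : (-1 : K) = ((p - 1 : ℕ) : K) := by
        rw [Nat.cast_sub h, CharP.cast_eq_zero]; simp
      rw [h1]
      generalize p - 1 = m
      induction m with
      | zero => simpa using (IsSumSq.zero : IsSumSq (0 : K))
      | succ m ih =>
        push_cast
        have : (m : K) + 1 = 1 * 1 + m := by ring
        rw [this]
        exact IsSumSq.sq_add 1 ih
  obtain ⟨M, rfl⟩ : ∃ M, N = M + 4 := ⟨N - 4, by omega⟩
  set l : Fin (M + 4) := Fin.last (M + 3) with hl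
  by_cases hul : u l = 1
  · refine ⟨- (Pi.single l 1), ?_, ?_⟩
    · simp
    · intro φ h
      have := congrFun h l
      simp only [hul, map_one, Pi.neg_apply, Pi.single_eq_same] at this
      have h2 : (2 : K) = 0 := by linear_combination this
      exact two_ne_zero h2
  · have hw : (1 : F) - algebraMap R F (u l) ≠ 0 := by
      intro h
      apply hul
      apply (IsFractionRing.injective R F)
      rw [map_one]
      linear_combination - h
    set w : F := 1 - algebraMap R F (u l) with hwdef
    let e : Fin 3 → Fin (M + 4) := fun i => ⟨i.1, by omega⟩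
    have hna := hA (fun i => algebraMap R F (u (e i)) / w)
    rw [AlgebraicIndependent, injective_iff_map_eq_zero] at hna
    push Not at hna
    obtain ⟨Φ, hΦ, hΦ0⟩ := hna
    have hinf : Infinite K := inferInstance
    obtain ⟨b, hb⟩ : ∃ b : Fin 3 → K, MvPolynomial.eval b Φ ≠ 0 := by
      by_contra hcon
      push Not at hcon
      exact hΦ0 (MvPolynomial.funext (fun x => by rw [hcon x, map_zero]))
    -- P = 0 in R
    have hP : homog Φ (fun i => u (e i)) (1 - u l) = 0 := by
      apply (IsFractionRing.injective R F)
      rw [map_zero]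
      have h1 : algebraMap R F (homog Φ (fun i => u (e i)) (1 - u l)) =
          (IsScalarTower.toAlgHom K R F) (homog Φ (fun i => u (e i)) (1 - u l)) := rfl
      rw [h1, homog_map, homog_eq (h := fun i => algebraMap R F (u (e i)) / w), hΦ, mul_zero]
      intro i
      simp only [IsScalarTower.coe_toAlgHom', map_sub, map_one]
      rw [← hwdef, div_mul_cancel₀ _ hw]
    -- q
    have hq : (1 : K) + ∑ i, b i ^ 2 ≠ 0 := by
      intro h
      apply hK
      have h1 : (-1 : K) = ∑ i, b i ^ 2 := by linear_combination - h
      rw [h1]
      refine IsSumSq.sum fun i _ => ?_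
      rw [sq]
      exact IsSumSq.mul_self _
    set q : K := 1 + ∑ i, b i ^ 2 with hqdef
    let c : Fin (M + 4) → K := fun j =>
      if h : j.1 < 3 then 2 * b ⟨j.1, h⟩ / q else if j = l then (q - 2) / q else 0
    have hce : ∀ i, c (e i) = 2 * b i / q := by
      intro i
      simp only [c, e]
      rw [dif_pos i.2]
    have hcl : c l = (q - 2) / q := by
      simp only [c]
      rw [dif_neg (by rw [hl, Fin.val_last]; omega)]
      simp
    refine ⟨c, ?_, ?_⟩
    · rw [dotProduct]
      have hsupp : ∑ j, c j * c j = ∑ j ∈ insert l (Finset.univ.image e), c j * c j := by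
        symm
        refine Finset.sum_subset (Finset.subset_univ _) ?_
        intro j _ hj
        rw [Finset.mem_insert, not_or, Finset.mem_image] at hj
        have h3 : ¬ j.1 < 3 := fun h => hj.2 ⟨⟨j.1, h⟩, Finset.mem_univ _, by ext; rfl⟩
        have : c j = 0 := by
          simp only [c]
          rw [dif_neg h3, if_neg hj.1]
        rw [this, mul_zero]
      rw [hsupp, Finset.sum_insert, Finset.sum_image]
      · rw [hcl]
        simp only [hce]
        have h4 : ∑ x, 2 * b x / q * (2 * b x / q) = 4 * (q - 1) / q ^ 2 := by
          have : ∀ x, 2 * b x / q * (2 * b x / q) = (b x ^ 2) * (4 / q ^ 2) := by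
            intro x; field_simp; ring
          simp only [this]
          rw [← Finset.sum_mul]
          have h5 : ∑ x, b x ^ 2 = q - 1 := by rw [hqdef]; ring
          rw [h5]; ring
        rw [h4]
        field_simp
        ring
      · intro i _ j _ hij
        have := congrArg Fin.val hij
        ext; exact this
      · rw [Finset.mem_image]
        rintro ⟨i, _, hi⟩
        have := congrArg Fin.val hi
        rw [hl, Fin.val_last] at this
        simp only [e] at this
        omega
    · intro φ h
      have h1 : φ (1 - u l) = 2 / q := by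
        have := congrFun h l
        rw [map_sub, map_one]
        simp only [hcl] at this
        rw [this]
        field_simp
        ring
      have h2 : ∀ i, φ (u (e i)) = 2 * b i / q := by
        intro i
        have := congrFun h (e i)
        simp only [hce] at this
        exact this
      have h3 : φ (homog Φ (fun i => u (e i)) (1 - u l)) = 0 := by rw [hP, map_zero]
      rw [homog_map, homog_eq (h := b)] at h3
      · rw [h1] at h3
        have h4 : MvPolynomial.aeval b Φ = MvPolynomial.eval b Φ := by
          rw [MvPolynomial.aeval_eq_eval]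
        rw [h4] at h3
        rcases mul_eq_zero.1 h3 with h5 | h5
        · have : (2 : K) / q ≠ 0 := div_ne_zero two_ne_zero hq
          exact pow_ne_zero _ this h5
        · exact hb h5
      · intro i
        rw [h2 i, h1]
        ring

end Pool.Agent.Y350.PY
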